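import Mathlib
import Pool.Agent.MP_6883a6_al.H25.Example

/-!
The Hanna Neumann-type inequality for algebraic submodules fails over every field, even when the rank
of the submodule exceeds `d`.
-/

namespace Pool.Agent.Results.MP_6883a6_al.Counterexample

open Pool.Agent.MP_6883a6_al.H25 MonoidAlgebra

theorem result (K : Type*) [Field K] :
    ∃ (d h m m' : ℕ) (H : Subgroup (FreeGroup (Fin 2)))
      (M : Submodule (MonoidAlgebra K (FreeGroup (Fin 2)))ᵐᵒᵖ
        (Fin d → MonoidAlgebra K (FreeGroup (Fin 2))))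
      (M' : Submodule (MonoidAlgebra K H)ᵐᵒᵖ (Fin d → MonoidAlgebra K H)),
      1 ≤ d ∧ H ≠ ⊥ ∧ H.FG ∧ Nonempty (FreeGroupBasis (Fin h) H) ∧
      M.FG ∧ Nonempty (Module.Basis (Fin m) (MonoidAlgebra K (FreeGroup (Fin 2)))ᵐᵒᵖ M) ∧
      (∀ N N' : Submodule (MonoidAlgebra K (FreeGroup (Fin 2)))ᵐᵒᵖ
        (Fin d → MonoidAlgebra K (FreeGroup (Fin 2))), IsCompl N N' → M ≤ N → N = ⊤) ∧
      (∀ v : Fin d → MonoidAlgebra K H,
        v ∈ M' ↔ (fun i => MonoidAlgebra.mapDomain H.subtype (v i)) ∈ M) ∧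
      Nonempty (Module.Basis (Fin m') (MonoidAlgebra K H)ᵐᵒᵖ M') ∧
      d < m ∧ ((m : ℚ) / d - 1) * ((h : ℚ) - 1) < (m' : ℚ) / d - 1 := by
  classical
  let H : Subgroup (FreeGroup (Fin 2)) := emb.range
  let bF := FreeGroupBasis.ofFreeGroup (Fin 2)
  let bH : FreeGroupBasis (Fin 3) H :=
    (FreeGroupBasis.ofFreeGroup (Fin 3)).map (MonoidHom.ofInjective emb_injective)
  have h0 : ((bH 0 : H) : FreeGroup (Fin 2)) = FreeGroup.of 0 := by
    change emb (FreeGroup.of 0) = _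
    simp [emb]
  have h1 : ((bH 1 : H) : FreeGroup (Fin 2)) =
      (FreeGroup.of 1)⁻¹ * FreeGroup.of 0 * FreeGroup.of 1 := by
    change emb (FreeGroup.of 1) = _
    simp [emb]
  let α : MonoidAlgebra K (FreeGroup (Fin 2)) := gm K (FreeGroup.of 0)
  let β : MonoidAlgebra K (FreeGroup (Fin 2)) :=
    gm K ((FreeGroup.of 1)⁻¹ * FreeGroup.of 0 * FreeGroup.of 1)
  refine ⟨4, 3, 1 + 2 * 2, 1 + 2 * 3, H, Mod α β, Mod (gm K (bH 0)) (gm K (bH 1)), by norm_num,
    ?_, ?_, ⟨bH⟩, fg_Mod bF α β, nonempty_basis bF α β (gm_cancel bF 0), ?_, ?_,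
    nonempty_basis bH _ _ (gm_cancel bH 0), by norm_num, by norm_num⟩
  · intro hH
    have : ((bH 0 : H) : FreeGroup (Fin 2)) ∈ (⊥ : Subgroup (FreeGroup (Fin 2))) := hH ▸ (bH 0).2
    rw [h0, Subgroup.mem_bot] at this
    exact FreeGroup.of_ne_one _ this
  · exact (Group.fg_iff_subgroup_fg H).1 (Group.fg_range emb)
  · refine eq_top_of_bound _ fun p hp => ?_
    have e0 := hp _ (gens_mem bF α β (Sum.inl ()))
    have e2 := hp _ (gens_mem bF α β (Sum.inr (Sum.inl 0)))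
    have e3 := hp _ (gens_mem bF α β (Sum.inr (Sum.inr 0)))
    simp only [gens, Sum.elim_inl, Sum.elim_inr, Fin.sum_univ_four, Matrix.cons_val_zero,
      Matrix.cons_val_one, Matrix.cons_val, mul_zero, add_zero, zero_add] at e0 e2 e3
    obtain ⟨hp0, hp1⟩ := indep_pair _ _ e0
    funext k
    fin_cases k
    · exact hp0
    · exact hp1
    · exact gm_cancel' bF 0 _ e2
    · exact gm_cancel' bF 0 _ e3
  · intro v
    rw [mem_Mod_iff, mapDomain_gm, mapDomain_gm, h0, h1]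

end Pool.Agent.Results.MP_6883a6_al.Counterexample
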