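import Mathlib
import Pool.Agent.MP_6883a6_al.H36.Final
import Pool.Agent.MP_6883a6_al.H36.Main
import Pool.Agent.MP_6883a6_al.H36.Ord
import Pool.Agent.MP_6883a6_al.H36.Ser
import Pool.Agent.MP_6883a6_al.H36.Val
import Pool.Agent.MP_6883a6_al.H36.Coef
import Pool.Agent.MP_6883a6_al.H36.LA
import Pool.Agent.MP_6883a6_al.H36.Sub
import Pool.Agent.MP_6883a6_al.H36.Tree
import Pool.Agent.MP_6883a6_al.H36.Low
import Pool.Agent.MP_6883a6_al.H36.Upp
import Pool.Agent.MP_6883a6_al.H36.Inner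
import Pool.Agent.MP_6883a6_al.H36.Cos

/-
The Hanna Neumann type inequality over free group algebras holds once the ambient rank `d` is
replaced by the least number of generators of a submodule that contains the module in question.
-/

namespace Pool.Agent.Results.MP_6883a6_al.InnerRank

open Pool.Agent.MP_6883a6_al.H36

theorem result (K X : Type) [Field K] (d h m ρ ρ' : ℕ) (H : Subgroup (FreeGroup X))
    (hH : H ≠ ⊥) (bH : FreeGroupBasis (Fin h) H)
    (M : Submodule (MonoidAlgebra K (FreeGroup X))ᵐᵒᵖ (Fin d → MonoidAlgebra K (FreeGroup X)))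
    (bM : Module.Basis (Fin m) (MonoidAlgebra K (FreeGroup X))ᵐᵒᵖ M)
    (M' : Submodule (MonoidAlgebra K H)ᵐᵒᵖ (Fin d → MonoidAlgebra K H))
    (hM' : ∀ v : Fin d → MonoidAlgebra K H,
      v ∈ M' ↔ (fun i => MonoidAlgebra.mapDomain H.subtype (v i)) ∈ M)
    (J : Type) (bM' : Module.Basis J (MonoidAlgebra K H)ᵐᵒᵖ M')
    (hρ : IsLeast {k : ℕ | ∃ w : Fin k → Fin d → MonoidAlgebra K (FreeGroup X), ∀ v ∈ M,
      v ∈ Submodule.span (MonoidAlgebra K (FreeGroup X))ᵐᵒᵖ (Set.range w)} ρ)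
    (hρ' : IsLeast {k : ℕ | ∃ w : Fin k → Fin d → MonoidAlgebra K (FreeGroup X), ∀ v ∈ M',
      (fun i => MonoidAlgebra.mapDomain H.subtype (v i)) ∈
        Submodule.span (MonoidAlgebra K (FreeGroup X))ᵐᵒᵖ (Set.range w)} ρ') :
    Finite J ∧ (Nat.card J : ℤ) - ρ' ≤ ((m : ℤ) - ρ) * ((h : ℤ) - 1) :=
  final (main ord ser (sub val coef la) (tree coef) low upp inner cos1 cos2) K X d h m ρ ρ' H hH bH
    M bM M' hM' J bM' hρ hρ'

end Pool.Agent.Results.MP_6883a6_al.InnerRank
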